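import Pool.Agent.Q19.HO.Stm

/-!
# Project HO: subspaces of matrices stable under the derivations of the octonions
-/

set_option autoImplicit false

namespace Pool.Agent.Q187.HO.STAB

open Pool.Agent.Q19.HO Matrix

variable {K : Type} [Field K]

/-- `δ_w (a,b,u,v) = (-w·v, w·v, (a-b) w, w×u)` -/
def dlF (w : Fin 3 → K) (x : Oct K) : Oct K :=
  (![-(w 0 * x 5 + w 1 * x 6 + w 2 * x 7), w 0 * x 5 + w 1 * x 6 + w 2 * x 7,
    (x 0 - x 1) * w 0, (x 0 - x 1) * w 1, (x 0 - x 1) * w 2,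
    w 1 * x 4 - w 2 * x 3, w 2 * x 2 - w 0 * x 4, w 0 * x 3 - w 1 * x 2] : Fin 8 → K)

lemma f0 (w : Fin 3 → K) (x : Oct K) : dlF w x 0 = -(w 0 * x 5 + w 1 * x 6 + w 2 * x 7) := rfl
lemma f1 (w : Fin 3 → K) (x : Oct K) : dlF w x 1 = w 0 * x 5 + w 1 * x 6 + w 2 * x 7 := rfl
lemma f2 (w : Fin 3 → K) (x : Oct K) : dlF w x 2 = (x 0 - x 1) * w 0 := rfl
lemma f3 (w : Fin 3 → K) (x : Oct K) : dlF w x 3 = (x 0 - x 1) * w 1 := rfl
lemma f4 (w : Fin 3 → K) (x : Oct K) : dlF w x 4 = (x 0 - x 1) * w 2 := rfl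
lemma f5 (w : Fin 3 → K) (x : Oct K) : dlF w x 5 = w 1 * x 4 - w 2 * x 3 := rfl
lemma f6 (w : Fin 3 → K) (x : Oct K) : dlF w x 6 = w 2 * x 2 - w 0 * x 4 := rfl
lemma f7 (w : Fin 3 → K) (x : Oct K) : dlF w x 7 = w 0 * x 3 - w 1 * x 2 := rfl

/-- `δ_w` -/
def dl (w : Fin 3 → K) : Oct K →ₗ[K] Oct K where
  toFun := dlF w
  map_add' x y := oct_ext fun i => by
    fin_cases i <;> simp [add_ap, f0, f1, f2, f3, f4, f5, f6, f7] <;> ring
  map_smul' r x := oct_ext fun i => by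
    fin_cases i <;> simp [smul_ap, f0, f1, f2, f3, f4, f5, f6, f7] <;> ring

/-- `δ'_w (a,b,u,v) = (w·u, -w·u, -(w×v), (b-a) w)` -/
def drF (w : Fin 3 → K) (x : Oct K) : Oct K :=
  (![w 0 * x 2 + w 1 * x 3 + w 2 * x 4, -(w 0 * x 2 + w 1 * x 3 + w 2 * x 4),
    -(w 1 * x 7 - w 2 * x 6), -(w 2 * x 5 - w 0 * x 7), -(w 0 * x 6 - w 1 * x 5),
    (x 1 - x 0) * w 0, (x 1 - x 0) * w 1, (x 1 - x 0) * w 2] : Fin 8 → K)

lemma g0 (w : Fin 3 → K) (x : Oct K) : drF w x 0 = w 0 * x 2 + w 1 * x 3 + w 2 * x 4 := rfl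
lemma g1 (w : Fin 3 → K) (x : Oct K) : drF w x 1 = -(w 0 * x 2 + w 1 * x 3 + w 2 * x 4) := rfl
lemma g2 (w : Fin 3 → K) (x : Oct K) : drF w x 2 = -(w 1 * x 7 - w 2 * x 6) := rfl
lemma g3 (w : Fin 3 → K) (x : Oct K) : drF w x 3 = -(w 2 * x 5 - w 0 * x 7) := rfl
lemma g4 (w : Fin 3 → K) (x : Oct K) : drF w x 4 = -(w 0 * x 6 - w 1 * x 5) := rfl
lemma g5 (w : Fin 3 → K) (x : Oct K) : drF w x 5 = (x 1 - x 0) * w 0 := rfl
lemma g6 (w : Fin 3 → K) (x : Oct K) : drF w x 6 = (x 1 - x 0) * w 1 := rfl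
lemma g7 (w : Fin 3 → K) (x : Oct K) : drF w x 7 = (x 1 - x 0) * w 2 := rfl

/-- `δ'_w` -/
def dr (w : Fin 3 → K) : Oct K →ₗ[K] Oct K where
  toFun := drF w
  map_add' x y := oct_ext fun i => by
    fin_cases i <;> simp [add_ap, g0, g1, g2, g3, g4, g5, g6, g7] <;> ring
  map_smul' r x := oct_ext fun i => by
    fin_cases i <;> simp [smul_ap, g0, g1, g2, g3, g4, g5, g6, g7] <;> ring

lemma dl0 (w : Fin 3 → K) (x : Oct K) : dl w x 0 = -(w 0 * x 5 + w 1 * x 6 + w 2 * x 7) := rfl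
lemma dl1 (w : Fin 3 → K) (x : Oct K) : dl w x 1 = w 0 * x 5 + w 1 * x 6 + w 2 * x 7 := rfl
lemma dl2 (w : Fin 3 → K) (x : Oct K) : dl w x 2 = (x 0 - x 1) * w 0 := rfl
lemma dl3 (w : Fin 3 → K) (x : Oct K) : dl w x 3 = (x 0 - x 1) * w 1 := rfl
lemma dl4 (w : Fin 3 → K) (x : Oct K) : dl w x 4 = (x 0 - x 1) * w 2 := rfl
lemma dl5 (w : Fin 3 → K) (x : Oct K) : dl w x 5 = w 1 * x 4 - w 2 * x 3 := rfl
lemma dl6 (w : Fin 3 → K) (x : Oct K) : dl w x 6 = w 2 * x 2 - w 0 * x 4 := rfl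
lemma dl7 (w : Fin 3 → K) (x : Oct K) : dl w x 7 = w 0 * x 3 - w 1 * x 2 := rfl

lemma dr0 (w : Fin 3 → K) (x : Oct K) : dr w x 0 = w 0 * x 2 + w 1 * x 3 + w 2 * x 4 := rfl
lemma dr1 (w : Fin 3 → K) (x : Oct K) : dr w x 1 = -(w 0 * x 2 + w 1 * x 3 + w 2 * x 4) := rfl
lemma dr2 (w : Fin 3 → K) (x : Oct K) : dr w x 2 = -(w 1 * x 7 - w 2 * x 6) := rfl
lemma dr3 (w : Fin 3 → K) (x : Oct K) : dr w x 3 = -(w 2 * x 5 - w 0 * x 7) := rfl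
lemma dr4 (w : Fin 3 → K) (x : Oct K) : dr w x 4 = -(w 0 * x 6 - w 1 * x 5) := rfl
lemma dr5 (w : Fin 3 → K) (x : Oct K) : dr w x 5 = (x 1 - x 0) * w 0 := rfl
lemma dr6 (w : Fin 3 → K) (x : Oct K) : dr w x 6 = (x 1 - x 0) * w 1 := rfl
lemma dr7 (w : Fin 3 → K) (x : Oct K) : dr w x 7 = (x 1 - x 0) * w 2 := rfl

lemma der_dl (w : Fin 3 → K) : IsDerO (dl w) := by
  intro x y
  refine oct_ext fun i => ?_
  fin_cases i <;> simp [mul0, mul1, mul2, mul3, mul4, mul5, mul6, mul7, add_ap, dl0, dl1, dl2,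
    dl3, dl4, dl5, dl6, dl7] <;> ring

lemma der_dr (w : Fin 3 → K) : IsDerO (dr w) := by
  intro x y
  refine oct_ext fun i => ?_
  fin_cases i <;> simp [mul0, mul1, mul2, mul3, mul4, mul5, mul6, mul7, add_ap, dr0, dr1, dr2,
    dr3, dr4, dr5, dr6, dr7] <;> ring

/-- basis elements -/
def e (k : Fin 8) : Oct K := (fun i => if i = k then 1 else 0 : Fin 8 → K)

lemma e_ap (k i : Fin 8) : (e k : Oct K) i = if i = k then 1 else 0 := rfl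

lemma expand (x : Oct K) : x = x 0 • e 0 + x 1 • e 1 + x 2 • e 2 + x 3 • e 3 + x 4 • e 4 +
    x 5 • e 5 + x 6 • e 6 + x 7 • e 7 := by
  refine oct_ext fun i => ?_
  fin_cases i <;> simp [add_ap, smul_ap, e_ap]

lemma xi (ξ : Oct K →ₗ[K] K) (x : Oct K) : ξ x = x 0 * ξ (e 0) + x 1 * ξ (e 1) + x 2 * ξ (e 2) +
    x 3 * ξ (e 3) + x 4 * ξ (e 4) + x 5 * ξ (e 5) + x 6 * ξ (e 6) + x 7 * ξ (e 7) := by
  conv_lhs => rw [expand x]
  simp only [map_add, map_smul, smul_eq_mul]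

/-- the functional `x 0 - x 1` -/
def mu : Oct K →ₗ[K] K where
  toFun x := x 0 - x 1
  map_add' x y := by simp only [add_ap]; ring
  map_smul' r x := by simp only [smul_ap, RingHom.id_apply, smul_eq_mul]; ring

lemma mu_ap (x : Oct K) : mu x = x 0 - x 1 := rfl

/-- the octonion `e 0 - e 1` -/
def m : Oct K := (![1, -1, 0, 0, 0, 0, 0, 0] : Fin 8 → K)

lemma m0 : (m : Oct K) 0 = 1 := rfl
lemma m1 : (m : Oct K) 1 = -1 := rfl
lemma m2 : (m : Oct K) 2 = 0 := rfl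
lemma m3 : (m : Oct K) 3 = 0 := rfl
lemma m4 : (m : Oct K) 4 = 0 := rfl
lemma m5 : (m : Oct K) 5 = 0 := rfl
lemma m6 : (m : Oct K) 6 = 0 := rfl
lemma m7 : (m : Oct K) 7 = 0 := rfl

/-- the rank one operator -/
def R (ξ : Oct K →ₗ[K] K) (o : Oct K) : Oct K →ₗ[K] Oct K := ξ.smulRight o

lemma R_ap (ξ : Oct K →ₗ[K] K) (o x : Oct K) : R ξ o x = ξ x • o := rfl

lemma id1 (h2 : (2 : K) ≠ 0) : R (mu : Oct K →ₗ[K] K) m =
    (2 : K)⁻¹ • (dr (![1, 0, 0] : Fin 3 → K) ∘ₗ dl (![1, 0, 0] : Fin 3 → K) ∘ₗ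
      dl (![1, 0, 0] : Fin 3 → K) ∘ₗ dr (![1, 0, 0] : Fin 3 → K)) := by
  refine LinearMap.ext fun x => oct_ext fun i => ?_
  rw [LinearMap.smul_apply, smul_ap, eq_inv_mul_iff_mul_eq₀ h2]
  simp only [LinearMap.comp_apply]
  fin_cases i <;> simp [R_ap, mu_ap, smul_ap, m0, m1, m2, m3, m4, m5, m6, m7, dl0, dl1, dl2, dl3,
    dl4, dl5, dl6, dl7, dr0, dr1, dr2, dr3, dr4, dr5, dr6, dr7] <;> ring

lemma id2 (h2 : (2 : K) ≠ 0) (o : Oct K) (ho : Im o) : R mu o =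
    o 0 • R mu m + (2 : K)⁻¹ • (dl ![o 2, o 3, o 4] ∘ₗ R mu m) -
      (2 : K)⁻¹ • (dr ![o 5, o 6, o 7] ∘ₗ R mu m) := by
  have h1 : o 1 = -o 0 := eq_neg_of_add_eq_zero_right ho
  refine LinearMap.ext fun x => oct_ext fun i => ?_
  simp only [LinearMap.sub_apply, LinearMap.add_apply, LinearMap.smul_apply, LinearMap.comp_apply,
    sub_ap, add_ap, smul_ap]
  fin_cases i <;> simp [R_ap, mu_ap, smul_ap, m0, m1, m2, m3, m4, m5, m6, m7, dl0, dl1, dl2, dl3,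
    dl4, dl5, dl6, dl7, dr0, dr1, dr2, dr3, dr4, dr5, dr6, dr7, h1] <;> field_simp <;> ring

lemma id3 (h2 : (2 : K) ≠ 0) (ξ : Oct K →ₗ[K] K) (hξ : ξ 1 = 0) (o : Oct K) : R ξ o =
    ξ (e 0) • R mu o + (2 : K)⁻¹ • (R mu o ∘ₗ dr ![ξ (e 2), ξ (e 3), ξ (e 4)]) -
      (2 : K)⁻¹ • (R mu o ∘ₗ dl ![ξ (e 5), ξ (e 6), ξ (e 7)]) := by
  have h1 : ξ (e 1) = -ξ (e 0) := by
    have := xi ξ 1
    rw [hξ] at this
    simp only [one0, one1, one2, one3, one4, one5, one6, one7] at this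
    linear_combination -this
  refine LinearMap.ext fun x => ?_
  simp only [LinearMap.sub_apply, LinearMap.add_apply, LinearMap.smul_apply, LinearMap.comp_apply,
    R_ap, smul_smul]
  rw [← add_smul, ← sub_smul]
  congr 1
  rw [xi ξ x, h1]
  simp [mu_ap, dl0, dl1, dl2, dl3, dl4, dl5, dl6, dl7, dr0, dr1, dr2, dr3, dr4, dr5, dr6, dr7]
  field_simp
  ring

/-- the operators which preserve `W` -/
def St {n : ℕ} (W : Submodule K (Mat n K)) : Submodule K (Oct K →ₗ[K] Oct K) where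
  carrier := {A | ∀ X ∈ W, X.map A ∈ W}
  add_mem' := fun {A B} hA hB X hX => W.add_mem (hA X hX) (hB X hX)
  zero_mem' := fun X _ => W.zero_mem
  smul_mem' := fun r A hA X hX => W.smul_mem r (hA X hX)

lemma St_comp {n : ℕ} {W : Submodule K (Mat n K)} {A B : Oct K →ₗ[K] Oct K} (hA : A ∈ St W)
    (hB : B ∈ St W) : A ∘ₗ B ∈ St W := fun X hX => hA _ (hB X hX)

theorem t : S_STAB := by
  intro K _ n h2 W hW ξ hξ o ho X hX
  have hdl : ∀ w, dl w ∈ St W := fun w X hX => hW _ (der_dl w) X hX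
  have hdr : ∀ w, dr w ∈ St W := fun w X hX => hW _ (der_dr w) X hX
  have h1 : R mu m ∈ St W := by
    rw [id1 h2]
    exact (St W).smul_mem _ (St_comp (hdr _) (St_comp (hdl _) (St_comp (hdl _) (hdr _))))
  have h3 : R mu o ∈ St W := by
    rw [id2 h2 o ho]
    exact (St W).sub_mem ((St W).add_mem ((St W).smul_mem _ h1)
      ((St W).smul_mem _ (St_comp (hdl _) h1))) ((St W).smul_mem _ (St_comp (hdr _) h1))
  have h4 : R ξ o ∈ St W := by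
    rw [id3 h2 ξ hξ o]
    exact (St W).sub_mem ((St W).add_mem ((St W).smul_mem _ h3)
      ((St W).smul_mem _ (St_comp h3 (hdr _)))) ((St W).smul_mem _ (St_comp h3 (hdl _)))
  exact h4 X hX

end Pool.Agent.Q187.HO.STAB
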